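import Pool.Agent.Q161.ESV.Stm3

/-! Project ESV (helper161), job NOL. -/

set_option autoImplicit false

namespace Pool.Agent.Q151.ESV

open NumberField IsDedekindDomain Finset Filter Topology Pool.Agent.Q161.ESV

theorem norm_two_padic : ‖(2 : ℚ_[2])‖ = (2 : ℝ)⁻¹ := by
  have := Padic.norm_p (p := 2)
  exact_mod_cast this

theorem nol : S_NOL := by
  intro F _ _ n ρ D c h
  have hcl : IsClosed ((LinearMap.range (cobV ρ D) : Submodule ℚ_[2] (GF F → (Fin n → ℚ_[2]))) :
      Set (GF F → (Fin n → ℚ_[2]))) :=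
    Submodule.closed_of_finiteDimensional _
  choose Q hQ using h
  have h2 : (2 : ℚ_[2]) ≠ 0 := two_ne_zero
  have hlim : Tendsto (fun j => cobV ρ D ((2 : ℚ_[2]) ^ j • Q j)) atTop (𝓝 c) := by
    rw [tendsto_pi_nhds]
    intro σ
    rw [tendsto_pi_nhds]
    intro i
    rw [tendsto_iff_norm_sub_tendsto_zero]
    refine squeeze_zero (fun _ => norm_nonneg _) (g := fun j : ℕ => ((2 : ℝ)⁻¹) ^ j) ?_
      (tendsto_pow_atTop_nhds_zero_of_lt_one (by norm_num) (by norm_num))
    intro j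
    have h3 := hQ j σ i
    have e : (cobV ρ D ((2 : ℚ_[2]) ^ j • Q j)) σ i - c σ i =
        -((2 : ℚ_[2]) ^ j * ((((2 : ℚ_[2]) ^ j)⁻¹ • c σ - cobV ρ D (Q j) σ) i)) := by
      rw [map_smul]
      simp only [Pi.smul_apply, Pi.sub_apply, smul_eq_mul]
      have : (2 : ℚ_[2]) ^ j ≠ 0 := pow_ne_zero _ h2
      field_simp
      ring
    rw [e, norm_neg, norm_mul, norm_pow, norm_two_padic]
    exact mul_le_of_le_one_right (by positivity) h3
  exact hcl.mem_of_tendsto hlim (Eventually.of_forall fun j => ⟨_, rfl⟩)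

end Pool.Agent.Q151.ESV
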